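import Mathlib

/-!
# MP_93e32b_nt, Q1 : the answer is no

For `p = X³ + 6` there is no integer-valued quadratic `q₀` such that `p(q₀(x))` is a sum of two
squares in `ℚ[x]`.
-/

namespace Pool.Agent.Results.MP_93e32b_nt.NoQuadraticSubstitution

open Polynomial

/-- `q` takes integer values at all integers. -/
def IntegerValued (q : ℚ[X]) : Prop := ∀ n : ℤ, ∃ m : ℤ, q.eval (n : ℚ) = m

/-! ### 2-adic facts -/

theorem no_cube (x : ℚ) : x ^ 3 + 6 ≠ 0 := by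
  intro h
  have h1 : (x.num : ℚ) ^ 3 + 6 * (x.den : ℚ) ^ 3 = 0 := by
    have hx : x = x.num / x.den := (Rat.num_div_den x).symm
    have hd : (x.den : ℚ) ≠ 0 := by exact_mod_cast x.den_nz
    rw [hx] at h
    field_simp at h
    linarith
  have h2 : x.num ^ 3 + 6 * (x.den : ℤ) ^ 3 = 0 := by exact_mod_cast h1
  have hcop := x.reduced
  have h3 : (2 : ℤ) ∣ x.num := by
    have : (2 : ℤ) ∣ x.num ^ 3 := ⟨-3 * (x.den : ℤ) ^ 3, by linarith⟩
    exact Int.prime_two.dvd_of_dvd_pow this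
  obtain ⟨k, hk⟩ := h3
  have h4 : (2 : ℤ) ∣ (x.den : ℤ) := by
    have : (2 : ℤ) ∣ (x.den : ℤ) ^ 3 := by
      rw [hk] at h2
      have h5 : 4 * k ^ 3 + 3 * (x.den : ℤ) ^ 3 = 0 := by linarith
      have : (x.den : ℤ) ^ 3 = 2 * (-2 * k ^ 3 - (x.den : ℤ) ^ 3) := by linarith
      exact ⟨_, this⟩
    exact Int.prime_two.dvd_of_dvd_pow this
  have h5 : 2 ∣ x.num.natAbs := Int.natAbs_dvd_natAbs.mpr (Dvd.intro k hk.symm)
  have h6 : 2 ∣ x.den := by exact_mod_cast h4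
  have := Nat.dvd_gcd h5 h6
  rw [hcop] at this
  omega

theorem sq_mod_eight (x : ℤ) : x ^ 2 % 8 = 0 ∨ x ^ 2 % 8 = 1 ∨ x ^ 2 % 8 = 4 := by
  have h : x % 8 = 0 ∨ x % 8 = 1 ∨ x % 8 = 2 ∨ x % 8 = 3 ∨ x % 8 = 4 ∨ x % 8 = 5 ∨ x % 8 = 6 ∨
    x % 8 = 7 := by omega
  rcases h with h | h | h | h | h | h | h | h <;> simp [pow_two, Int.mul_emod, h]

theorem no_sum_int (n : ℤ) (hn : n % 8 = 6) : ∀ D : ℕ, 0 < D → ∀ A B : ℤ,
    A ^ 2 + B ^ 2 ≠ n * (D : ℤ) ^ 2 := by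
  intro D
  induction D using Nat.strong_induction_on with
  | _ D ih =>
    intro hD A B h
    rcases Nat.even_or_odd' D with ⟨d, rfl | rfl⟩
    · have hA : A ^ 2 % 4 = 0 ∧ B ^ 2 % 4 = 0 := by
        have h1 : (A ^ 2 + B ^ 2) % 4 = 0 := by
          rw [h]
          push_cast
          have : n * (2 * (d : ℤ)) ^ 2 = 4 * (n * (d : ℤ) ^ 2) := by ring
          rw [this]
          simp
        have h2 := sq_mod_eight A
        have h3 := sq_mod_eight B
        omega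
      have hA2 : (2 : ℤ) ∣ A := by
        apply Int.prime_two.dvd_of_dvd_pow (n := 2)
        omega
      have hB2 : (2 : ℤ) ∣ B := by
        apply Int.prime_two.dvd_of_dvd_pow (n := 2)
        omega
      obtain ⟨A', rfl⟩ := hA2
      obtain ⟨B', rfl⟩ := hB2
      apply ih d (by omega) (by omega) A' B'
      push_cast at h
      linarith [h]
    · have h1 : (A ^ 2 + B ^ 2) % 8 = 6 := by
        rw [h]
        have h2 : ((2 * d + 1 : ℕ) : ℤ) ^ 2 % 8 = 1 := by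
          have h3 := sq_mod_eight ((2 * d + 1 : ℕ) : ℤ)
          have h4 : ((2 * d + 1 : ℕ) : ℤ) ^ 2 % 2 = 1 := by
            push_cast
            have : (2 * (d : ℤ) + 1) ^ 2 = 2 * (2 * (d : ℤ) ^ 2 + 2 * d) + 1 := by ring
            rw [this]
            omega
          omega
        rw [Int.mul_emod, hn, h2]
        norm_num
      have h2 := sq_mod_eight A
      have h3 := sq_mod_eight B
      omega

theorem no_sum_rat (n : ℤ) (hn : n % 8 = 6) (x y : ℚ) : x ^ 2 + y ^ 2 ≠ n := by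
  intro h
  apply no_sum_int n hn (x.den * y.den) (Nat.mul_pos x.den_pos y.den_pos)
    (x.num * y.den) (y.num * x.den)
  have hx : x = x.num / x.den := (Rat.num_div_den x).symm
  have hy : y = y.num / y.den := (Rat.num_div_den y).symm
  have hdx : (x.den : ℚ) ≠ 0 := by exact_mod_cast x.den_nz
  have hdy : (y.den : ℚ) ≠ 0 := by exact_mod_cast y.den_nz
  have : ((x.num : ℚ) * y.den) ^ 2 + ((y.num : ℚ) * x.den) ^ 2
      = (n : ℚ) * ((x.den : ℚ) * y.den) ^ 2 := by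
    rw [← h]
    nth_rewrite 3 [hx]
    nth_rewrite 3 [hy]
    field_simp
  exact_mod_cast this

/-! ### The algebraic core -/

theorem core {a m c10 c11 c12 c13 c20 c21 c22 c23 : ℚ} (ha : a ≠ 0)
    (h : ∀ y : ℚ, (a * y ^ 2 + m) ^ 3 + 6
      = (c13 * y ^ 3 + c12 * y ^ 2 + c11 * y + c10) ^ 2
        + (c23 * y ^ 3 + c22 * y ^ 2 + c21 * y + c20) ^ 2) :
    a ^ 3 = c13 ^ 2 + c23 ^ 2 ∧
    ∃ ν s : ℚ, a * (ν ^ 3 + 6) = s ^ 2 ∧ 4 * m * (ν ^ 3 + 6) = ν ^ 4 - 48 * ν := by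
  have h0 := h 0
  have h1 := h 1
  have h1' := h (-1)
  have h2 := h 2
  have h2' := h (-2)
  have h3 := h 3
  have h3' := h (-3)
  have e6 : a ^ 3 = c13 ^ 2 + c23 ^ 2 := by
    linear_combination (1 / 720 : ℚ) * (h3 + h3') - (1 / 120 : ℚ) * (h2 + h2')
      + (1 / 48 : ℚ) * (h1 + h1') - (1 / 36 : ℚ) * h0
  have e5 : c13 * c12 + c23 * c22 = 0 := by
    linear_combination (-1 / 2 : ℚ) * ((1 / 240 : ℚ) * (h3 - h3') - (1 / 60 : ℚ) * (h2 - h2')
      + (1 / 48 : ℚ) * (h1 - h1'))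
  have e4 : 3 * a ^ 2 * m = c12 ^ 2 + c22 ^ 2 + 2 * (c13 * c11 + c23 * c21) := by
    linear_combination (-1 / 144 : ℚ) * (h3 + h3') + (1 / 12 : ℚ) * (h2 + h2')
      - (13 / 48 : ℚ) * (h1 + h1') + (7 / 18 : ℚ) * h0
  have e3 : c13 * c10 + c12 * c11 + c23 * c20 + c22 * c21 = 0 := by
    linear_combination (-1 / 2 : ℚ) * ((-1 / 48 : ℚ) * (h3 - h3') + (1 / 6 : ℚ) * (h2 - h2')
      - (13 / 48 : ℚ) * (h1 - h1'))
  have e2 : 3 * a * m ^ 2 = c11 ^ 2 + c21 ^ 2 + 2 * (c12 * c10 + c22 * c20) := by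
    linear_combination (1 / 180 : ℚ) * (h3 + h3') - (3 / 40 : ℚ) * (h2 + h2')
      + (3 / 4 : ℚ) * (h1 + h1') - (49 / 36 : ℚ) * h0
  have e1 : c11 * c10 + c21 * c20 = 0 := by
    linear_combination (-1 / 2 : ℚ) * ((1 / 60 : ℚ) * (h3 - h3') - (3 / 20 : ℚ) * (h2 - h2')
      + (3 / 4 : ℚ) * (h1 - h1'))
  have e0 : m ^ 3 + 6 = c10 ^ 2 + c20 ^ 2 := by
    linear_combination h0
  clear h h0 h1 h1' h2 h2' h3 h3'
  refine ⟨e6, ?_⟩
  have hN : c13 ^ 2 + c23 ^ 2 ≠ 0 := by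
    rw [← e6]; positivity
  obtain ⟨α, rfl, rfl⟩ : ∃ α, c12 = α * c23 ∧ c22 = -α * c13 := by
    refine ⟨(c12 * c23 - c22 * c13) / (c13 ^ 2 + c23 ^ 2), ?_, ?_⟩
    · field_simp
      linear_combination c13 * e5
    · field_simp
      linear_combination c23 * e5
  obtain ⟨z1, z2, rfl, rfl⟩ : ∃ z1 z2, c11 = z1 * c13 - z2 * c23 ∧ c21 = z1 * c23 + z2 * c13 := by
    refine ⟨(c11 * c13 + c21 * c23) / (c13 ^ 2 + c23 ^ 2),
      (c21 * c13 - c11 * c23) / (c13 ^ 2 + c23 ^ 2), ?_, ?_⟩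
    · field_simp
      ring
    · field_simp
      ring
  obtain ⟨w1, w2, rfl, rfl⟩ : ∃ w1 w2, c10 = w1 * c13 + w2 * c23 ∧ c20 = w1 * c23 - w2 * c13 := by
    refine ⟨(c10 * c13 + c20 * c23) / (c13 ^ 2 + c23 ^ 2),
      (c10 * c23 - c20 * c13) / (c13 ^ 2 + c23 ^ 2), ?_, ?_⟩
    · field_simp
      ring
    · field_simp
      ring
  have g3 : w1 = α * z2 := by
    have : (c13 ^ 2 + c23 ^ 2) * (w1 - α * z2) = 0 := by linear_combination e3
    rcases mul_eq_zero.mp this with h | h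
    · exact absurd h hN
    · linarith
  have g1 : z1 * w1 - z2 * w2 = 0 := by
    have : (c13 ^ 2 + c23 ^ 2) * (z1 * w1 - z2 * w2) = 0 := by linear_combination e1
    rcases mul_eq_zero.mp this with h | h
    · exact absurd h hN
    · exact h
  have f4 : 3 * a ^ 2 * m = a ^ 3 * (α ^ 2 + 2 * z1) := by
    rw [e6]; linear_combination e4
  have f2 : 3 * a * m ^ 2 = a ^ 3 * (z1 ^ 2 + z2 ^ 2 + 2 * α * w2) := by
    rw [e6]; linear_combination e2
  have f0 : m ^ 3 + 6 = a ^ 3 * (w1 ^ 2 + w2 ^ 2) := by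
    rw [e6]; linear_combination e0
  by_cases hz : z2 = 0
  · subst hz
    have hw1 : w1 = 0 := by rw [g3, mul_zero]
    subst hw1
    have k1 : 3 * m = a * (α ^ 2 + 2 * z1) := by
      have : a ^ 2 * (3 * m - a * (α ^ 2 + 2 * z1)) = 0 := by linear_combination f4
      rcases mul_eq_zero.mp this with h | h
      · exact absurd h (pow_ne_zero 2 ha)
      · linarith
    have k2 : 3 * m ^ 2 = a ^ 2 * (z1 ^ 2 + 2 * α * w2) := by
      have : a * (3 * m ^ 2 - a ^ 2 * (z1 ^ 2 + 2 * α * w2)) = 0 := by linear_combination f2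
      rcases mul_eq_zero.mp this with h | h
      · exact absurd h ha
      · linarith
    refine ⟨m - a * z1, a ^ 2 * (w2 - α * z1), ?_, ?_⟩
    · linear_combination a * f0 - a * z1 * f2 + a * z1 ^ 2 * f4
    · have q1 : a * α ^ 2 = m + 2 * (m - a * z1) := by linear_combination -k1
      have q2 : 2 * a ^ 2 * α * w2 = 3 * m ^ 2 - (m - (m - a * z1)) ^ 2 := by
        linear_combination -k2
      have q3 : (2 * a ^ 2 * α * w2) ^ 2 = 4 * (a * α ^ 2) * (a ^ 3 * w2 ^ 2) := by ring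
      have q4 : a ^ 3 * w2 ^ 2 = m ^ 3 + 6 := by linear_combination -f0
      rw [q1, q2, q4] at q3
      linear_combination -q3
  · exfalso
    have hw2 : w2 = α * z1 := by
      have : z2 * (α * z1 - w2) = 0 := by rw [g3] at g1; linear_combination g1
      rcases mul_eq_zero.mp this with h | h
      · exact absurd h hz
      · linarith
    apply no_cube (m - a * α ^ 2)
    rw [g3, hw2] at f0
    rw [hw2] at f2
    linear_combination f0 - α ^ 2 * f2 + α ^ 4 * f4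

/-- the 2-adic contradiction -/
theorem final {a b c : ℚ} {m : ℤ} (ha : a ≠ 0) (hc : c = m) {u v : ℚ} (hN : a ^ 3 = u ^ 2 + v ^ 2)
    {ν s : ℚ} (h1 : a * (ν ^ 3 + 6) = s ^ 2)
    (h2 : 4 * (c - b ^ 2 / (4 * a)) * (ν ^ 3 + 6) = ν ^ 4 - 48 * ν) : False := by
  have ht0 := no_cube ν
  have hs : s ≠ 0 := by
    rintro rfl
    apply mul_ne_zero ha ht0
    rw [h1]; norm_num
  -- `E = 4 c (ν³ + 6) - ν⁴ + 48 ν` is a square
  have hE : 4 * (m : ℚ) * (ν ^ 3 + 6) - ν ^ 4 + 48 * ν = (b * (ν ^ 3 + 6) / s) ^ 2 := by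
    rw [← hc]
    have h3 : 4 * c * (ν ^ 3 + 6) - ν ^ 4 + 48 * ν = b ^ 2 / a * (ν ^ 3 + 6) := by
      have : 4 * (c - b ^ 2 / (4 * a)) * (ν ^ 3 + 6)
          = 4 * c * (ν ^ 3 + 6) - b ^ 2 / a * (ν ^ 3 + 6) := by
        field_simp
      linear_combination h2 - this
    rw [h3, div_pow, ← h1]
    field_simp
  obtain ⟨r, t, ht, hcop, hν⟩ : ∃ (r : ℤ) (t : ℤ), t ≠ 0 ∧ ¬ (2 ∣ r ∧ 2 ∣ t) ∧ ν = r / t := by
    refine ⟨ν.num, ν.den, by exact_mod_cast ν.den_nz, ?_, ?_⟩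
    · rintro ⟨h3, h4⟩
      have h5 : 2 ∣ ν.num.natAbs := by
        have := Int.natAbs_dvd_natAbs.mpr h3
        exact this
      have h6 : 2 ∣ ν.den := by exact_mod_cast h4
      have := Nat.dvd_gcd h5 h6
      rw [ν.reduced] at this
      omega
    · exact_mod_cast (Rat.num_div_den ν).symm
  have htq : (t : ℚ) ≠ 0 := by exact_mod_cast ht
  -- an integer square
  have hsq : IsSquare (4 * m * (r ^ 3 + 6 * t ^ 3) * t - r ^ 4 + 48 * r * t ^ 3) := by
    rw [← Rat.isSquare_intCast_iff]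
    refine ⟨b * (ν ^ 3 + 6) / s * t ^ 2, ?_⟩
    have h4 : b * (ν ^ 3 + 6) / s * t ^ 2 * (b * (ν ^ 3 + 6) / s * t ^ 2)
        = (b * (ν ^ 3 + 6) / s) ^ 2 * t ^ 4 := by ring
    rw [h4, ← hE, hν]
    push_cast
    field_simp
  obtain ⟨k, hk⟩ := hsq
  have hr : 2 ∣ r := by
    by_contra hodd
    have h5 : k * k % 4 = 3 := by
      rw [← hk]
      have h6 : r ^ 4 % 4 = 1 := by
        have h7 : r % 4 = 1 ∨ r % 4 = 3 := by omega
        rcases h7 with h7 | h7 <;> simp [pow_succ, Int.mul_emod, h7]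
      have h8 : 4 * m * (r ^ 3 + 6 * t ^ 3) * t - r ^ 4 + 48 * r * t ^ 3
          = 4 * (m * (r ^ 3 + 6 * t ^ 3) * t + 12 * r * t ^ 3) - r ^ 4 := by ring
      rw [h8]
      omega
    have h9 : k % 4 = 0 ∨ k % 4 = 1 ∨ k % 4 = 2 ∨ k % 4 = 3 := by omega
    rcases h9 with h9 | h9 | h9 | h9 <;> simp [Int.mul_emod, h9] at h5
  have htodd : ¬ 2 ∣ t := fun h => hcop ⟨hr, h⟩
  have hmod : (r ^ 3 + 6 * t ^ 3) * t % 8 = 6 := by
    obtain ⟨r', rfl⟩ := hr
    have h5 : t ^ 4 % 8 = 1 := by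
      have h7 : t % 8 = 1 ∨ t % 8 = 3 ∨ t % 8 = 5 ∨ t % 8 = 7 := by omega
      rcases h7 with h7 | h7 | h7 | h7 <;> simp [pow_succ, Int.mul_emod, h7]
    have h6 : ((2 * r') ^ 3 + 6 * t ^ 3) * t = 8 * (r' ^ 3 * t) + 6 * t ^ 4 := by ring
    rw [h6]
    omega
  apply no_sum_rat _ hmod (t ^ 2 * (s / a) * (u / a)) (t ^ 2 * (s / a) * (v / a))
  have h7 : (((r ^ 3 + 6 * t ^ 3) * t : ℤ) : ℚ) = t ^ 4 * (ν ^ 3 + 6) := by
    rw [hν]
    push_cast
    field_simp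
  rw [h7]
  have h8 : ν ^ 3 + 6 = s ^ 2 / a := by
    field_simp
    linear_combination h1
  rw [h8]
  have h9 : (t ^ 2 * (s / a) * (u / a)) ^ 2 + (t ^ 2 * (s / a) * (v / a)) ^ 2
      = t ^ 4 * s ^ 2 / a ^ 4 * (u ^ 2 + v ^ 2) := by
    field_simp
  rw [h9, ← hN]
  field_simp

/-- if `q₁² + q₂²` has degree at most six then the `q_j` have degree at most three -/
theorem degree_le {q1 q2 f : ℚ[X]} (hf : f.natDegree ≤ 6) (h : f = q1 ^ 2 + q2 ^ 2) :
    q1.natDegree ≤ 3 ∧ q2.natDegree ≤ 3 := by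
  set d := max q1.natDegree q2.natDegree with hd
  have h1 : q1.natDegree ≤ d := le_max_left _ _
  have h2 : q2.natDegree ≤ d := le_max_right _ _
  by_contra hcon
  have hd3 : 3 < d := by omega
  have hc : f.coeff (d + d) = q1.coeff d ^ 2 + q2.coeff d ^ 2 := by
    rw [h, Polynomial.coeff_add, pow_two, pow_two,
      Polynomial.coeff_mul_add_eq_of_natDegree_le h1 h1, Polynomial.coeff_mul_add_eq_of_natDegree_le h2 h2]
    ring
  rw [Polynomial.coeff_eq_zero_of_natDegree_lt (by omega)] at hc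
  have h3 : q1.coeff d = 0 := by nlinarith [sq_nonneg (q1.coeff d), sq_nonneg (q2.coeff d)]
  have h4 : q2.coeff d = 0 := by nlinarith [sq_nonneg (q1.coeff d), sq_nonneg (q2.coeff d)]
  rcases max_choice q1.natDegree q2.natDegree with hm | hm
  · rw [hd, hm] at h3
    have h5 : q1 = 0 := Polynomial.leadingCoeff_eq_zero.mp h3
    have h6 : q1.natDegree = 0 := by rw [h5]; simp
    omega
  · rw [hd, hm] at h4
    have h5 : q2 = 0 := Polynomial.leadingCoeff_eq_zero.mp h4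
    have h6 : q2.natDegree = 0 := by rw [h5]; simp
    omega

theorem eval_cubic {q : ℚ[X]} (hq : q.natDegree ≤ 3) (x : ℚ) :
    q.eval x = q.coeff 3 * x ^ 3 + q.coeff 2 * x ^ 2 + q.coeff 1 * x + q.coeff 0 := by
  rw [Polynomial.eval_eq_sum_range' (n := 4) (by omega)]
  simp [Finset.sum_range_succ]
  ring

/-- **MP_93e32b_nt, Q1: no.**  The irreducible monic cubic `p = X³ + 6` has no integer-valued
quadratic `q₀` such that `p(q₀(x))` is a sum of two squares in `ℚ[x]`. -/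
theorem result :
    ((X ^ 3 + C 6 : ℤ[X]).Monic ∧ (X ^ 3 + C 6 : ℤ[X]).natDegree = 3 ∧
      Irreducible (X ^ 3 + C 6 : ℤ[X])) ∧
    (¬ ∃ q0 q1 q2 : ℚ[X], IntegerValued q0 ∧ q0.natDegree = 2 ∧
      ((X ^ 3 + C 6 : ℤ[X]).map (Int.castRingHom ℚ)).comp q0 = q1 ^ 2 + q2 ^ 2) ∧
    ¬ (∀ p : ℤ[X], p.Monic → p.natDegree = 3 → Irreducible p →
      ∃ q0 q1 q2 : ℚ[X], IntegerValued q0 ∧ q0.natDegree = 2 ∧
        (p.map (Int.castRingHom ℚ)).comp q0 = q1 ^ 2 + q2 ^ 2) := by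
  have hmonic : (X ^ 3 + C 6 : ℤ[X]).Monic := Polynomial.monic_X_pow_add_C 6 (by norm_num)
  have hdeg : (X ^ 3 + C 6 : ℤ[X]).natDegree = 3 := Polynomial.natDegree_X_pow_add_C
  have hirr : Irreducible (X ^ 3 + C 6 : ℤ[X]) := by
    rw [hmonic.irreducible_iff_roots_eq_zero_of_degree_le_three (by omega) (by omega)]
    rw [Multiset.eq_zero_iff_forall_notMem]
    intro x hx
    have h1 := (Polynomial.mem_roots'.mp hx).2
    rw [Polynomial.IsRoot.def, Polynomial.eval_add, Polynomial.eval_pow, Polynomial.eval_X,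
      Polynomial.eval_C] at h1
    apply no_cube (x : ℚ)
    exact_mod_cast h1
  have hno : ¬ ∃ q0 q1 q2 : ℚ[X], IntegerValued q0 ∧ q0.natDegree = 2 ∧
      ((X ^ 3 + C 6 : ℤ[X]).map (Int.castRingHom ℚ)).comp q0 = q1 ^ 2 + q2 ^ 2 := by
    rintro ⟨q0, q1, q2, hint, hq0, h⟩
    have hcomp : ((X ^ 3 + C 6 : ℤ[X]).map (Int.castRingHom ℚ)).comp q0 = q0 ^ 3 + C 6 := by
      rw [Polynomial.map_add, Polynomial.map_pow, Polynomial.map_X, Polynomial.map_C,
        Polynomial.add_comp, Polynomial.pow_comp, Polynomial.X_comp, Polynomial.C_comp]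
      rfl
    rw [hcomp] at h
    have hf : (q0 ^ 3 + C 6 : ℚ[X]).natDegree ≤ 6 := by
      apply le_trans (Polynomial.natDegree_add_le _ _)
      apply max_le
      · apply le_trans Polynomial.natDegree_pow_le
        omega
      · simp
    obtain ⟨hd1, hd2⟩ := degree_le hf h
    set a := q0.coeff 2 with ha
    set b := q0.coeff 1 with hb
    set c := q0.coeff 0 with hc
    have ha0 : a ≠ 0 := by
      rw [ha, ← hq0]
      intro h0
      have : q0 = 0 := Polynomial.leadingCoeff_eq_zero.mp h0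
      rw [this] at hq0
      simp at hq0
    have hev : ∀ x : ℚ, (a * x ^ 2 + b * x + c) ^ 3 + 6
        = (q1.coeff 3 * x ^ 3 + q1.coeff 2 * x ^ 2 + q1.coeff 1 * x + q1.coeff 0) ^ 2
          + (q2.coeff 3 * x ^ 3 + q2.coeff 2 * x ^ 2 + q2.coeff 1 * x + q2.coeff 0) ^ 2 := by
      intro x
      have h1 := congrArg (Polynomial.eval x) h
      simp only [Polynomial.eval_add, Polynomial.eval_pow, Polynomial.eval_C] at h1
      rw [eval_cubic hd1, eval_cubic hd2] at h1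
      have h2 : q0.eval x = a * x ^ 2 + b * x + c := by
        rw [Polynomial.eval_eq_sum_range' (n := 3) (by omega)]
        simp [Finset.sum_range_succ]
        ring
      rw [h2] at h1
      exact h1
    obtain ⟨m, hm⟩ := hint 0
    have hcm : c = m := by
      rw [← hm, hc]
      simp [Polynomial.coeff_zero_eq_eval_zero]
    set δ := b / (2 * a) with hδ
    have hcore := core (m := c - b ^ 2 / (4 * a)) ha0
      (c13 := q1.coeff 3) (c12 := q1.coeff 2 - 3 * δ * q1.coeff 3)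
      (c11 := q1.coeff 1 - 2 * δ * q1.coeff 2 + 3 * δ ^ 2 * q1.coeff 3)
      (c10 := q1.coeff 0 - δ * q1.coeff 1 + δ ^ 2 * q1.coeff 2 - δ ^ 3 * q1.coeff 3)
      (c23 := q2.coeff 3) (c22 := q2.coeff 2 - 3 * δ * q2.coeff 3)
      (c21 := q2.coeff 1 - 2 * δ * q2.coeff 2 + 3 * δ ^ 2 * q2.coeff 3)
      (c20 := q2.coeff 0 - δ * q2.coeff 1 + δ ^ 2 * q2.coeff 2 - δ ^ 3 * q2.coeff 3)
      (by
        intro y
        have h1 := hev (y - δ)
        have h2 : a * (y - δ) ^ 2 + b * (y - δ) + c = a * y ^ 2 + (c - b ^ 2 / (4 * a)) := by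
          rw [hδ]
          field_simp
          ring
        rw [h2] at h1
        linear_combination h1)
    obtain ⟨hN, ν, s, h1, h2⟩ := hcore
    exact final ha0 hcm hN h1 h2
  exact ⟨⟨hmonic, hdeg, hirr⟩, hno, fun hall => hno (hall _ hmonic hdeg hirr)⟩

end Pool.Agent.Results.MP_93e32b_nt.NoQuadraticSubstitution
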